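import Pool.Agent.BLP.StmtsV

namespace Pool.Agent.BLP.V.H99

open MeasureTheory ProbabilityTheory Filter Topology Pool.Agent.BLP Pool.Agent.BLP.V

theorem v_vvv (hN : NovStmt) (hG : GeoStmt) : VvvStmt := by
  intro X _ μ B c hS hL β hI hM
  filter_upwards [hN X μ B c hS hL β hI hM] with x hx
  exact hG (B x) _ (hS.cts x) hx

theorem v_wib : WibStmt := by
  intro c p q A hc hA
  have hA' : (1 : ℝ) ≤ A := by exact_mod_cast hA
  have hA0 : (0 : ℝ) < A := by linarith
  obtain ⟨sA, hsA⟩ : ∃ sA, sA = Real.sqrt (A : ℝ) := ⟨_, rfl⟩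
  have hsA0 : 0 < sA := by rw [hsA]; exact Real.sqrt_pos.mpr hA0
  have hsA2 : sA * sA = A := by rw [hsA]; exact Real.mul_self_sqrt hA0.le
  refine ⟨(c / 2 * (q * sA + p * (A * sA))) ^ 2 + 1, by positivity, ?_⟩
  intro α α' h1 h2
  have hα : 0 < α := lt_of_lt_of_le (by positivity) h1
  have hα' : 0 < α' := lt_of_lt_of_le hα h2
  unfold wI
  obtain ⟨u, hu⟩ : ∃ u, u = Real.sqrt α := ⟨_, rfl⟩
  obtain ⟨v, hv⟩ : ∃ v, v = Real.sqrt α' := ⟨_, rfl⟩
  have hu0 : 0 < u := by rw [hu]; exact Real.sqrt_pos.mpr hα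
  have hv0 : 0 < v := by rw [hv]; exact Real.sqrt_pos.mpr hα'
  have hu2 : u * u = α := by rw [hu]; exact Real.mul_self_sqrt hα.le
  have hv2 : v * v = α' := by rw [hv]; exact Real.mul_self_sqrt hα'.le
  have huv : u ≤ v := by rw [hu, hv]; exact Real.sqrt_le_sqrt h2
  rw [← hu, ← hv]
  have hAα : 1 ≤ A * α := by
    rw [div_le_iff₀ hA0] at h1
    linarith
  have h3 : 1 ≤ sA * u := by
    by_contra hc'
    push Not at hc'
    have h0 : 0 < sA * u := by positivity
    have : (sA * u) * (sA * u) < 1 := by nlinarith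
    have h5 : (sA * u) * (sA * u) = A * α := by
      rw [← hsA2, ← hu2]; ring
    linarith
  have h3' : 1 ≤ sA * v := le_trans h3 (by nlinarith)
  have hd : 0 ≤ v - u := by linarith
  have hda : α' - α = (v - u) * (v + u) := by rw [← hv2, ← hu2]; ring
  have h4 : v - u ≤ sA * (α' - α) := by
    rw [hda]
    have : (v - u) * 1 ≤ (v - u) * (sA * (v + u)) := by
      apply mul_le_mul_of_nonneg_left _ hd
      nlinarith
    linarith
  have h5 : 1 / u - 1 / v ≤ A * sA * (α' - α) := by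
    have e1 : 1 / u - 1 / v = (v - u) / (u * v) := by
      field_simp
    rw [e1, div_le_iff₀ (by positivity)]
    have h6 : 1 ≤ A * (u * v) := by
      have : A * (u * v) = (sA * u) * (sA * v) := by rw [← hsA2]; ring
      rw [this]
      nlinarith
    have h7 : v - u ≤ (v - u) * (A * (u * v)) := by nlinarith
    have h8 : (v - u) * (A * (u * v)) ≤ (sA * (α' - α)) * (A * (u * v)) := by
      apply mul_le_mul_of_nonneg_right h4
      positivity
    calc v - u ≤ (sA * (α' - α)) * (A * (u * v)) := le_trans h7 h8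
      _ = A * sA * (α' - α) * (u * v) := by ring
  have h6 : 0 ≤ 1 / u - 1 / v := by
    have : 1 / v ≤ 1 / u := one_div_le_one_div_of_le hu0 huv
    linarith
  have hda0 : 0 ≤ α' - α := by linarith
  have hq : (0 : ℝ) ≤ q := Nat.cast_nonneg q
  have hp : (0 : ℝ) ≤ p := Nat.cast_nonneg p
  have hw0 : 0 ≤ c / 2 * (q * (v - u) + p * (1 / u - 1 / v)) := by positivity
  have hw1 : c / 2 * (q * (v - u) + p * (1 / u - 1 / v)) ≤
      (c / 2 * (q * sA + p * (A * sA))) * (α' - α) := by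
    have e1 : (q : ℝ) * (v - u) ≤ q * (sA * (α' - α)) := mul_le_mul_of_nonneg_left h4 hq
    have e2 : (p : ℝ) * (1 / u - 1 / v) ≤ p * (A * sA * (α' - α)) :=
      mul_le_mul_of_nonneg_left h5 hp
    have e3 := mul_le_mul_of_nonneg_left (add_le_add e1 e2) (by positivity : (0 : ℝ) ≤ c / 2)
    calc _ ≤ _ := e3
      _ = _ := by ring
  calc (c / 2 * (q * (v - u) + p * (1 / u - 1 / v))) ^ 2
      ≤ ((c / 2 * (q * sA + p * (A * sA))) * (α' - α)) ^ 2 := pow_le_pow_left₀ hw0 hw1 2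
    _ = (c / 2 * (q * sA + p * (A * sA))) ^ 2 * (α' - α) ^ 2 := by ring
    _ ≤ ((c / 2 * (q * sA + p * (A * sA))) ^ 2 + 1) * (α' - α) ^ 2 := by
      nlinarith [sq_nonneg (α' - α)]

end Pool.Agent.BLP.V.H99
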